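import Pool.Agent.KS6_6.SC.Final

set_option autoImplicit false

/-!
# Unique games with constant alphabet: semidefinite programming with all valid constraints on
`exp ((log n) ^ c)` vertices fails

`LocalSdp R μ` (in `Pool/Agent/KS6_6/UG/Defs.lean`) is the basic semidefinite relaxation strengthened
by all valid constraints on at most `R` vertices: `μ` is a positive semidefinite matrix of numbers
`μ (u, a) (v, b)` (the pseudo-probability that `u` has the label `a` and `v` the label `b`), and for
every set of at most `R` vertices the restriction of `μ` comes from a true probability distribution
on labelings.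

The theorem: for all `ε`, `δ` there is an alphabet size `q = 2 ^ l`, not depending on the number of
vertices, such that for all large `n` there are bipartite unique games with `n` vertices, even
systems of equations `L (t e) = L (s e) + b e` over the group `(Z / 2) ^ l`, in which no labeling
satisfies more than a fraction `δ` of the constraints, while the relaxation of level
`exp ((log n) ^ c)` has value at least `1 - ε`, where `c = 1 / (20 log (8 log (2 / δ) / ε))`.

Proof. The games of `LocalConstraintsSdp` (with `2 ^ h` labels, `2 ^ (K h)` vertices and `2 ^ (c' h)`
local constraints, all constants depending on `ε`, `δ` only) are composed with the code of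
polynomials of bounded degree `D` on `F_2 ^ h` with values in `F_2 ^ l`, which has only
`2 ^ (l (h + 1) ^ D)` words instead of the `2 ^ (l 2 ^ h)` words of the long code. The noise of the
dictatorship test adds multiples of products of `r` random affine forms (`D = 2 r + 2`). Its
spectral analysis is an elementary inductive argument: if a linear functional restricted to the
multiples of more than a quarter of all affine forms is a combination of evaluations at few points,
then so is the functional. For the soundness one needs a level inequality for functions of small
density, with constants not depending on `l`, when all influences are small: it follows from a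
fourth moment estimate proved by symmetrization and the two-to-four hypercontractive inequality on
the cube. The solution of the relaxation for the composed game is the image of the solution for the
original game; sets of at most `R` vertices are mapped to sets of at most `R` vertices.
-/

namespace Pool.Agent.KS6_6.Old.ConstantAlphabetGap

open Finset Pool.Agent.KS6_6.UG

/-- Let `0 < ε < 1` and `0 < δ < 1`. There are numbers `l` and `n₀` such that for all `n ≥ n₀` there
is a unique game with vertices `Fin n` (divided into the two parts `part v = false` and
`part v = true`) and labels `Fin l → Bool`, with constraints `L (t e) = L (s e) + b e`, such that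
all labelings satisfy at most a fraction `δ` of the constraints, and a solution `μ` of value at
least `1 - ε` of the semidefinite relaxation with all valid constraints on at most `R` vertices for
all `R ≤ exp ((log n) ^ c)`, `c = 1 / (20 log (8 log (2 / δ) / ε))`. -/
theorem result (ε δ : ℝ) (hε0 : 0 < ε) (hε1 : ε < 1) (hδ0 : 0 < δ) (hδ1 : δ < 1) :
    ∃ (l n₀ : ℕ), ∀ n : ℕ, n₀ ≤ n →
      ∃ (E : Type) (_ : Fintype E) (_ : Nonempty E) (s t : E → Fin n) (b : E → (Fin l → Bool))
        (part : Fin n → Bool), (∀ e, part (s e) = false ∧ part (t e) = true) ∧
        (∀ L : Fin n → (Fin l → Bool),
          ((univ.filter fun e => ∀ i, L (t e) i = xor (L (s e) i) (b e i)).card : ℝ) ≤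
            δ * Fintype.card E) ∧
        ∃ μ : Fin n × (Fin l → Bool) → Fin n × (Fin l → Bool) → ℝ,
          (∀ R : ℕ, (R : ℝ) ≤
            Real.exp (Real.log n ^ (1 / (20 * Real.log (8 * Real.log (2 / δ) / ε)))) →
            LocalSdp R μ) ∧
          (1 - ε) * Fintype.card E ≤
            ∑ e, ∑ a, μ (s e, a) (t e, fun i => xor (a i) (b e i)) := by
  obtain ⟨l, n₀, h⟩ := Pool.Agent.KS6_6.SC.final ε δ hε0 hε1 hδ0 hδ1
  refine ⟨l, n₀, fun n hn => ?_⟩
  obtain ⟨E, iE1, iE2, s, t, b, part, μ, h0, h1, h2, h3⟩ := h n hn
  refine ⟨E, iE1, iE2, s, t, b, part, h0, ?_, μ, h2, h3⟩
  intro L
  refine le_trans (le_of_eq ?_) (h1 L)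
  congr 2
  ext e
  simp only [Finset.mem_filter, Finset.mem_univ, true_and]
  constructor
  · intro h4
    funext i
    exact h4 i
  · intro h4 i
    exact congrFun h4 i

end Pool.Agent.KS6_6.Old.ConstantAlphabetGap
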